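import Pool.Agent.Q62.CC.Stn

/-!
# Project CC, job CIR: circulation around a circle
-/

set_option autoImplicit false

open Set Filter Topology MeasureTheory
open scoped ENNReal ContDiff

namespace Pool.Agent.Q210.CC62.Cir

open Pool.Agent.Q62.CC
open Pool.Agent.Q61.NC (Sp pd StopsIn)

theorem sum2 {d : ℕ} {j k : Fin d} (hjk : j ≠ k) (F : Fin d → ℝ)
    (hF : ∀ i, i ≠ j → i ≠ k → F i = 0) : ∑ i, F i = F j + F k :=
  Finset.sum_eq_add j k hjk (fun i _ h => hF i h.1 h.2) (fun h => absurd (Finset.mem_univ _) h)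
    (fun h => absurd (Finset.mem_univ _) h)

theorem pd_neg {d : ℕ} (i : Fin d) (f : Sp d → ℝ) : pd i (fun y => -f y) = fun y => -pd i f y := by
  funext y
  simp [pd, fderiv_fun_neg]

theorem vel_j {d : ℕ} {j k : Fin d} (Ω : ℝ → ℝ → ℝ) (A : Fin d → ℝ → ℝ → ℝ) (t : ℝ) (x : Sp d) :
    vel j k Ω A t x j = -(x k * Ω t (N2 j k x)) := by
  simp [vel]

theorem vel_k {d : ℕ} {j k : Fin d} (hjk : j ≠ k) (Ω : ℝ → ℝ → ℝ) (A : Fin d → ℝ → ℝ → ℝ) (t : ℝ)
    (x : Sp d) : vel j k Ω A t x k = x j * Ω t (N2 j k x) := by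
  simp [vel, hjk.symm]

/-- the point on the circle -/
noncomputable def pt {d : ℕ} (j k : Fin d) (r φ : ℝ) : Sp d :=
  (r * Real.cos φ) • EuclideanSpace.single j (1 : ℝ) +
    (r * Real.sin φ) • EuclideanSpace.single k (1 : ℝ)

theorem pt_j {d : ℕ} {j k : Fin d} (hjk : j ≠ k) (r φ : ℝ) : pt j k r φ j = r * Real.cos φ := by
  simp [pt, hjk]

theorem pt_k {d : ℕ} {j k : Fin d} (hjk : j ≠ k) (r φ : ℝ) : pt j k r φ k = r * Real.sin φ := by
  simp [pt, hjk.symm]

theorem pt_N2 {d : ℕ} {j k : Fin d} (hjk : j ≠ k) (r φ : ℝ) : N2 j k (pt j k r φ) = r ^ 2 := by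
  unfold N2
  rw [pt_j hjk, pt_k hjk]
  have := Real.sin_sq_add_cos_sq φ
  linear_combination r ^ 2 * this

theorem pt_deriv {d : ℕ} {j k : Fin d} (hjk : j ≠ k) (r φ : ℝ) :
    HasDerivAt (pt j k r) ((-(pt j k r φ k)) • EuclideanSpace.single j (1 : ℝ) +
      (pt j k r φ j) • EuclideanSpace.single k (1 : ℝ)) φ := by
  rw [pt_j hjk, pt_k hjk]
  have h1 : HasDerivAt (fun φ => r * Real.cos φ) (-(r * Real.sin φ)) φ := by
    have := (Real.hasDerivAt_cos φ).const_mul r
    refine this.congr_deriv ?_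
    ring
  have h2 : HasDerivAt (fun φ => r * Real.sin φ) (r * Real.cos φ) φ :=
    (Real.hasDerivAt_sin φ).const_mul r
  exact (h1.smul_const _).add (h2.smul_const _)

theorem t_CIR (hp1 : S_LAP) : S_CIR := by
  intro d j k a b T hjk ha hab U₀ Ω A p hst N₀ N₁ Ωt Ω1 Ω2 hN₀ hN₀a hbN₁ hdt hdx hdxx t ht s hs
  have hk' : k ≠ j := hjk.symm
  have hs0 : 0 < s := lt_of_lt_of_le (by positivity) hs.1
  have hsN : s ∈ Ioo N₀ N₁ := ⟨hN₀a.trans_le hs.1, hs.2.trans_lt hbN₁⟩
  set r := √s with hr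
  have hr2 : r ^ 2 = s := Real.sq_sqrt hs0.le
  have hN2 : ∀ φ, N2 j k (pt j k r φ) = s := fun φ => by rw [pt_N2 hjk, hr2]
  have hmem : ∀ φ, pt j k r φ ∈ shell j k a b := by
    intro φ
    refine ⟨?_, ?_⟩
    · rw [hN2]; exact hs.1
    · rw [hN2]; exact hs.2
  -- the components of the gradient of the pressure
  have hgrad : ∀ φ, pd j (p t) (pt j k r φ) = pt j k r φ k * Ωt t s + pt j k r φ j * Ω t s ^ 2 -
        pt j k r φ k * (4 * s * Ω2 t s + 8 * Ω1 t s) ∧
      pd k (p t) (pt j k r φ) = -(pt j k r φ j * Ωt t s) + pt j k r φ k * Ω t s ^ 2 +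
        pt j k r φ j * (4 * s * Ω2 t s + 8 * Ω1 t s) := by
    intro φ
    set x := pt j k r φ with hx
    have hxN : N2 j k x ∈ Ioo N₀ N₁ := by rw [hN2]; exact hsN
    obtain ⟨-, -, hO⟩ := hp1 d j k N₀ N₁ (Ω t) (Ω1 t) (Ω2 t) hjk (fun s hs => hdx t s ht hs)
      (fun s hs => hdxx t s ht hs) x hxN
    obtain ⟨oj1, oj2⟩ := hO j (Or.inl rfl)
    obtain ⟨ok1, ok2⟩ := hO k (Or.inr rfl)
    have vj : (fun y : Sp d => vel j k Ω A t y j) = fun y => -(y k * Ω t (N2 j k y)) := by
      funext y; exact vel_j Ω A t y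
    have vk : (fun y : Sp d => vel j k Ω A t y k) = fun y => y j * Ω t (N2 j k y) := by
      funext y; exact vel_k hjk Ω A t y
    have mj := hst.momentum t ht x (hmem φ) j
    have mk := hst.momentum t ht x (hmem φ) k
    have hderj : deriv (fun s => vel j k Ω A s x j) t = -(x k * Ωt t (N2 j k x)) := by
      have : (fun s => vel j k Ω A s x j) = fun s => -(x k * Ω s (N2 j k x)) := by
        funext s; exact vel_j Ω A s x
      rw [this]
      exact ((hdt t _ ht hxN).const_mul (x k)).neg.deriv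
    have hderk : deriv (fun s => vel j k Ω A s x k) t = x j * Ωt t (N2 j k x) := by
      have : (fun s => vel j k Ω A s x k) = fun s => x j * Ω s (N2 j k x) := by
        funext s; exact vel_k hjk Ω A s x
      rw [this]
      exact ((hdt t _ ht hxN).const_mul (x j)).deriv
    constructor
    · rw [hderj, vj] at mj
      simp only [pd_neg] at mj
      rw [sum2 hjk] at mj
      · simp only [ok1, ok2, Finset.sum_neg_distrib, vel_j, vel_k hjk] at mj
        simp only [if_true, if_neg hjk, true_or, or_true, if_true, zero_add] at mj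
        rw [hN2] at mj
        linear_combination mj
      · intro i hi1 hi2
        simp only [ok1]
        simp [hi1, hi2]
    · rw [hderk, vk] at mk
      rw [sum2 hjk] at mk
      · simp only [oj1, oj2, vel_j, vel_k hjk] at mk
        simp only [if_true, if_neg hk', true_or, or_true, if_true, zero_add] at mk
        rw [hN2] at mk
        linear_combination mk
      · intro i hi1 hi2
        simp only [oj1]
        simp [hi1, hi2]
  -- differentiability of the pressure
  obtain ⟨N, hNo, hGN, -, hpsm⟩ := hst.smooth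
  have hdiff : ∀ φ, DifferentiableAt ℝ (p t) (pt j k r φ) := by
    intro φ
    have h1 : ContDiffAt ℝ ∞ (fun z : ℝ × Sp d => p z.1 z.2) (t, pt j k r φ) :=
      hpsm.contDiffAt ((isOpen_Ioi.prod hNo).mem_nhds ⟨ht, hGN (hmem φ)⟩)
    have h2 : DifferentiableAt ℝ (fun z : ℝ × Sp d => p z.1 z.2) (t, pt j k r φ) :=
      h1.differentiableAt (by simp)
    have h3 : DifferentiableAt ℝ (fun y : Sp d => (t, y)) (pt j k r φ) :=
      (differentiableAt_const t).prodMk differentiableAt_id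
    exact h2.comp (pt j k r φ) h3
  set c : ℝ := -(s * (Ωt t s - (4 * s * Ω2 t s + 8 * Ω1 t s))) with hc
  have hP : ∀ φ, HasDerivAt (fun φ => p t (pt j k r φ)) c φ := by
    intro φ
    have h1 := (hdiff φ).hasFDerivAt.comp_hasDerivAt φ (pt_deriv hjk r φ)
    refine h1.congr_deriv ?_
    rw [map_add, map_smul, map_smul]
    have e1 : fderiv ℝ (p t) (pt j k r φ) (EuclideanSpace.single j (1 : ℝ)) =
      pd j (p t) (pt j k r φ) := rfl
    have e2 : fderiv ℝ (p t) (pt j k r φ) (EuclideanSpace.single k (1 : ℝ)) =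
      pd k (p t) (pt j k r φ) := rfl
    rw [e1, e2, (hgrad φ).1, (hgrad φ).2, smul_eq_mul, smul_eq_mul, hc]
    have h2 : pt j k r φ j ^ 2 + pt j k r φ k ^ 2 = s := hN2 φ
    linear_combination (-(Ωt t s) + (4 * s * Ω2 t s + 8 * Ω1 t s)) * h2
  have hconst : ∀ φ, HasDerivAt (fun φ => p t (pt j k r φ) - c * φ) 0 φ := by
    intro φ
    have := (hP φ).sub ((hasDerivAt_id φ).const_mul c)
    refine this.congr_deriv ?_
    ring
  have h1 := is_const_of_deriv_eq_zero (f := fun φ => p t (pt j k r φ) - c * φ)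
    (fun φ => (hconst φ).differentiableAt) (fun φ => (hconst φ).deriv) (2 * Real.pi) 0
  have h2 : pt j k r (2 * Real.pi) = pt j k r 0 := by
    unfold pt
    rw [Real.cos_two_pi, Real.sin_two_pi, Real.cos_zero, Real.sin_zero]
  simp only [h2, mul_zero, sub_zero] at h1
  have hc0 : c = 0 := by
    have hpi := Real.pi_pos
    have h3 : c * (2 * Real.pi) = 0 := by linarith
    rcases mul_eq_zero.1 h3 with h | h
    · exact h
    · exfalso; linarith
  rw [hc, neg_eq_zero, mul_eq_zero] at hc0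
  rcases hc0 with h | h
  · exact absurd h hs0.ne'
  · linarith

end Pool.Agent.Q210.CC62.Cir
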