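import Pool.Agent.Q62.CC.Stm

set_option autoImplicit false

open Set Filter Topology MeasureTheory

namespace Pool.Agent.Q210.CC62.Grd

open Pool.Agent.Q62.CC

lemma green_split (α β : ℝ) (g : ℝ → ℝ) (hab : α < β) (hg : Continuous g) (x : ℝ)
    (hx : x ∈ Icc α β) :
    ∫ y in Icc α β, Gr α β x y * g y =
      ((β - x) * (∫ y in α..x, (y - α) * g y) + (x - α) * (∫ y in x..β, (β - y) * g y)) /
        (β - α) := by
  have hne : β - α ≠ 0 := by linarith
  rw [integral_Icc_eq_integral_Ioc, ← intervalIntegral.integral_of_le hab.le]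
  have hc : Continuous fun y => Gr α β x y * g y := by
    unfold Gr
    fun_prop
  rw [← intervalIntegral.integral_add_adjacent_intervals (hc.intervalIntegrable α x)
    (hc.intervalIntegrable x β)]
  have h1 : ∫ y in α..x, Gr α β x y * g y =
      ∫ y in α..x, ((β - x) / (β - α)) * ((y - α) * g y) := by
    apply intervalIntegral.integral_congr
    intro y hy
    rw [uIcc_of_le hx.1] at hy
    simp only [Gr]
    rw [min_eq_right hy.2, max_eq_left hy.2]
    ring
  have h2 : ∫ y in x..β, Gr α β x y * g y =
      ∫ y in x..β, ((x - α) / (β - α)) * ((β - y) * g y) := by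
    apply intervalIntegral.integral_congr
    intro y hy
    rw [uIcc_of_le hx.2] at hy
    simp only [Gr]
    rw [min_eq_left hy.1, max_eq_right hy.1]
    ring
  rw [h1, h2, intervalIntegral.integral_const_mul, intervalIntegral.integral_const_mul]
  field_simp

theorem t_GRD : S_GRD := by
  intro α β h hab hh
  have hne : β - α ≠ 0 := by linarith
  -- continuous extension
  obtain ⟨g, hg, hgh⟩ : ∃ g : ℝ → ℝ, Continuous g ∧ ∀ y ∈ Icc α β, g y = h y := by
    refine ⟨IccExtend hab.le (domRestrict (Icc α β) h), ?_, ?_⟩
    · exact (continuousOn_iff_continuous_domRestrict.1 hh).Icc_extend'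
    · intro y hy
      rw [IccExtend_of_mem _ _ hy]
      rfl
  have hF : ∀ x ∈ Icc α β, ∫ y in Icc α β, Gr α β x y * h y =
      ((β - x) * (∫ y in α..x, (y - α) * g y) + (x - α) * (∫ y in x..β, (β - y) * g y)) /
        (β - α) := by
    intro x hx
    rw [← green_split α β g hab hg x hx]
    apply setIntegral_congr_fun measurableSet_Icc
    intro y hy
    simp only [hgh y hy]
  have hcP : Continuous fun y => (y - α) * g y := by fun_prop
  have hcQ : Continuous fun y => (β - y) * g y := by fun_prop
  have dP : ∀ x, HasDerivAt (fun x => ∫ y in α..x, (y - α) * g y) ((x - α) * g x) x := by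
    intro x
    exact intervalIntegral.integral_hasDerivAt_right (hcP.intervalIntegrable _ _)
      (hcP.stronglyMeasurableAtFilter _ _) hcP.continuousAt
  have dQ : ∀ x, HasDerivAt (fun x => ∫ y in x..β, (β - y) * g y) (-((β - x) * g x)) x := by
    intro x
    exact intervalIntegral.integral_hasDerivAt_left (hcQ.intervalIntegrable _ _)
      (hcQ.stronglyMeasurableAtFilter _ _) hcQ.continuousAt
  refine ⟨fun x => ((∫ y in x..β, (β - y) * g y) - ∫ y in α..x, (y - α) * g y) / (β - α),
    ?_, ?_, ?_, ?_⟩
  · intro x hx
    have d : HasDerivAt (fun x => ((β - x) * (∫ y in α..x, (y - α) * g y) +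
        (x - α) * (∫ y in x..β, (β - y) * g y)) / (β - α))
        (((∫ y in x..β, (β - y) * g y) - ∫ y in α..x, (y - α) * g y) / (β - α)) x := by
      have d1 : HasDerivAt (fun x : ℝ => β - x) (-1) x := by
        simpa using (hasDerivAt_id x).const_sub β
      have d2 : HasDerivAt (fun x : ℝ => x - α) 1 x := by
        simpa using (hasDerivAt_id x).sub_const α
      refine (((d1.mul (dP x)).add (d2.mul (dQ x))).div_const (β - α)).congr_deriv ?_
      field_simp
      ring
    exact d.hasDerivWithinAt.congr hF (hF x hx)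
  · intro x hx
    have d := ((dQ x).sub (dP x)).div_const (β - α)
    have e : (-((β - x) * g x) - (x - α) * g x) / (β - α) = -h x := by
      rw [← hgh x hx]
      field_simp
      ring
    rw [e] at d
    exact d.hasDerivWithinAt
  · rw [hF α ⟨le_refl _, hab.le⟩]
    simp
  · rw [hF β ⟨hab.le, le_refl _⟩]
    simp

end Pool.Agent.Q210.CC62.Grd
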