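import Pool.Agent.Q62.CC.Stn

/-!
# Project CC, job SHR: functions of the distance from the axis which vanish on the shell
-/

set_option autoImplicit false

open Set Filter Topology MeasureTheory
open scoped ENNReal ContDiff

namespace Pool.Agent.Q210.CC62.Shr

open Pool.Agent.Q62.CC
open Pool.Agent.Q61.NC (Sp pd)

/-- one variable -/
theorem one_var {a b c : ℝ} (ha : 0 < a) (hab : a < b) (hc0 : 0 ≤ c) (hc : c < a ^ 2)
    (G : ℝ → ℝ≥0∞) :
    ENNReal.ofReal (1 / (2 * b)) * ∫⁻ t in Icc (a ^ 2) (b ^ 2), G t ≤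
      ∫⁻ u in {u : ℝ | 0 < u ∧ u ^ 2 + c ∈ Icc (a ^ 2) (b ^ 2)}, G (u ^ 2 + c) := by
  have hb : 0 < b := ha.trans hab
  have hm : Measurable fun u : ℝ => u ^ 2 + c := by fun_prop
  set s : Set ℝ := {u : ℝ | 0 < u ∧ u ^ 2 + c ∈ Icc (a ^ 2) (b ^ 2)} with hs
  have ms : MeasurableSet s :=
    (measurableSet_lt measurable_const measurable_id).inter (hm measurableSet_Icc)
  have hd : ∀ x ∈ s, HasDerivWithinAt (fun u : ℝ => u ^ 2 + c) (2 * x) s x := by
    intro x _
    have := (((hasDerivAt_pow 2 x).add_const c)).hasDerivWithinAt (s := s)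
    simpa using this
  have hinj : InjOn (fun u : ℝ => u ^ 2 + c) s := by
    intro u hu v hv huv
    simp only [add_left_inj] at huv
    exact (pow_left_inj₀ hu.1.le hv.1.le two_ne_zero).1 huv
  have himg : (fun u : ℝ => u ^ 2 + c) '' s = Icc (a ^ 2) (b ^ 2) := by
    apply Subset.antisymm
    · exact image_subset_iff.2 fun u hu => hu.2
    · intro t ht
      have htc : 0 < t - c := by linarith [ht.1]
      have h1 : (√(t - c)) ^ 2 + c = t := by
        rw [Real.sq_sqrt htc.le]; ring
      refine ⟨√(t - c), ⟨Real.sqrt_pos.2 htc, ?_⟩, h1⟩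
      rw [h1]; exact ht
  have h3 := lintegral_image_eq_lintegral_abs_deriv_mul ms hd hinj G
  rw [himg] at h3
  have h4 : ∫⁻ t in Icc (a ^ 2) (b ^ 2), G t ≤ ENNReal.ofReal (2 * b) * ∫⁻ u in s, G (u ^ 2 + c) := by
    rw [h3, ← lintegral_const_mul' _ _ ENNReal.ofReal_ne_top]
    refine setLIntegral_mono' ms fun u hu => ?_
    have hub : u ≤ b := by
      by_contra h
      rw [not_le] at h
      have h5 := hu.2.2
      nlinarith
    have : |2 * u| ≤ 2 * b := by
      rw [abs_of_pos (by linarith [hu.1])]
      linarith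
    gcongr
  calc ENNReal.ofReal (1 / (2 * b)) * ∫⁻ t in Icc (a ^ 2) (b ^ 2), G t
      ≤ ENNReal.ofReal (1 / (2 * b)) * (ENNReal.ofReal (2 * b) * ∫⁻ u in s, G (u ^ 2 + c)) := by
        gcongr
    _ = ∫⁻ u in s, G (u ^ 2 + c) := by
        rw [← mul_assoc, ← ENNReal.ofReal_mul (by positivity), one_div,
          inv_mul_cancel₀ (by positivity), ENNReal.ofReal_one, one_mul]

theorem t_SHR : S_SHR := by
  intro d j k a b hjk ha hab G hG h0
  have hb : 0 < b := ha.trans hab
  obtain ⟨n, rfl⟩ : ∃ n, d = n + 1 := by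
    rcases d with _ | n
    · exact j.elim0
    · exact ⟨n, rfl⟩
  obtain ⟨k', hk'⟩ := Fin.exists_succAbove_eq hjk.symm
  set I := ∫⁻ t in Icc (a ^ 2) (b ^ 2), G t with hI
  set B : Set (Fin n → ℝ) := Icc (fun _ => (0 : ℝ)) (fun _ => a / 2) with hB
  have mB : MeasurableSet B := measurableSet_Icc
  set T : Set (ℝ × (Fin n → ℝ)) := {z | 0 < z.1 ∧
    z.1 ^ 2 + z.2 k' ^ 2 ∈ Icc (a ^ 2) (b ^ 2) ∧ z.2 ∈ B} with hT
  have mk : Measurable fun z : ℝ × (Fin n → ℝ) => z.1 ^ 2 + z.2 k' ^ 2 :=
    (measurable_fst.pow_const 2).add (((measurable_pi_apply k').comp measurable_snd).pow_const 2)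
  have mT : MeasurableSet T :=
    (measurableSet_lt measurable_const measurable_fst).inter
      ((mk measurableSet_Icc).inter (measurable_snd mB))
  set F : ℝ × (Fin n → ℝ) → ℝ≥0∞ := T.indicator fun z => G (z.1 ^ 2 + z.2 k' ^ 2) with hF
  have mF : Measurable F := (hG.comp mk).indicator mT
  have mp : MeasurePreserving (fun x : Sp (n + 1) =>
      MeasurableEquiv.piFinSuccAbove (fun _ : Fin (n + 1) => ℝ) j
        ((MeasurableEquiv.toLp 2 (Fin (n + 1) → ℝ)).symm x)) volume volume :=
    (volume_preserving_piFinSuccAbove (fun _ : Fin (n + 1) => ℝ) j).comp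
      (EuclideanSpace.volume_preserving_symm_measurableEquiv_toLp (Fin (n + 1)))
  set S : Set (Sp (n + 1)) := {x : Sp (n + 1) | x ∈ shell j k a b ∧ ∀ i, |x i| ≤ b} with hS
  have mS : MeasurableSet S := by
    have mc : ∀ i, Measurable fun x : Sp (n + 1) => x i := fun i =>
      (EuclideanSpace.proj (𝕜 := ℝ) i).continuous.measurable
    have mN : Measurable fun x : Sp (n + 1) => N2 j k x :=
      ((mc j).pow_const 2).add ((mc k).pow_const 2)
    have h3 : MeasurableSet {x : Sp (n + 1) | ∀ i, |x i| ≤ b} := by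
      have : {x : Sp (n + 1) | ∀ i, |x i| ≤ b} = ⋂ i, {x : Sp (n + 1) | |x i| ≤ b} := by
        ext x; simp
      rw [this]
      exact MeasurableSet.iInter fun i => measurableSet_le (mc i).abs measurable_const
    exact ((measurableSet_le measurable_const mN).inter
      (measurableSet_le mN measurable_const)).inter h3
  have key : volume B * (ENNReal.ofReal (1 / (2 * b)) * I) ≤ 0 := by
    calc volume B * (ENNReal.ofReal (1 / (2 * b)) * I)
        = ∫⁻ w, B.indicator (fun _ => ENNReal.ofReal (1 / (2 * b)) * I) w := by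
          rw [lintegral_indicator mB, lintegral_const, Measure.restrict_apply_univ]
          ring
      _ ≤ ∫⁻ w, ∫⁻ u, F (u, w) := by
          refine lintegral_mono fun w => ?_
          by_cases hw : w ∈ B
          · rw [indicator_of_mem hw]
            have hwk0 : 0 ≤ w k' := hw.1 k'
            have hwk1 : w k' ≤ a / 2 := hw.2 k'
            have e2 : (fun u => F (u, w)) = ({u : ℝ | 0 < u ∧
                u ^ 2 + w k' ^ 2 ∈ Icc (a ^ 2) (b ^ 2)}).indicator
                  (fun u => G (u ^ 2 + w k' ^ 2)) := by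
              funext u
              by_cases hu : u ∈ {u : ℝ | 0 < u ∧ u ^ 2 + w k' ^ 2 ∈ Icc (a ^ 2) (b ^ 2)}
              · have : (u, w) ∈ T := ⟨hu.1, hu.2, hw⟩
                rw [indicator_of_mem hu, hF, indicator_of_mem this]
              · have : (u, w) ∉ T := fun h => hu ⟨h.1, h.2.1⟩
                rw [indicator_of_notMem hu, hF, indicator_of_notMem this]
            have m3 : MeasurableSet {u : ℝ | 0 < u ∧
                u ^ 2 + w k' ^ 2 ∈ Icc (a ^ 2) (b ^ 2)} := by
              have hm : Measurable fun u : ℝ => u ^ 2 + w k' ^ 2 := by fun_prop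
              exact (measurableSet_lt measurable_const measurable_id).inter
                (hm measurableSet_Icc)
            have e3 : ∫⁻ u, F (u, w) = ∫⁻ u in {u : ℝ | 0 < u ∧
                u ^ 2 + w k' ^ 2 ∈ Icc (a ^ 2) (b ^ 2)}, G (u ^ 2 + w k' ^ 2) := by
              rw [e2, lintegral_indicator m3]
            rw [e3]
            exact one_var ha hab (sq_nonneg _) (by nlinarith) G
          · rw [indicator_of_notMem hw]
            exact zero_le
      _ = ∫⁻ z, F z := by
          rw [Measure.volume_eq_prod]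
          exact (lintegral_prod_symm' F mF).symm
      _ = ∫⁻ x : Sp (n + 1), F (MeasurableEquiv.piFinSuccAbove (fun _ : Fin (n + 1) => ℝ) j
            ((MeasurableEquiv.toLp 2 (Fin (n + 1) → ℝ)).symm x)) := (mp.lintegral_comp mF).symm
      _ ≤ ∫⁻ x in S, G (N2 j k x) := by
          rw [← lintegral_indicator mS]
          refine lintegral_mono fun x => ?_
          have e1 : x (j.succAbove k') = x k := by rw [hk']
          by_cases hx : MeasurableEquiv.piFinSuccAbove (fun _ : Fin (n + 1) => ℝ) j
              ((MeasurableEquiv.toLp 2 (Fin (n + 1) → ℝ)).symm x) ∈ T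
          · obtain ⟨h1, h2, h3⟩ := hx
            have hj : 0 < x j := h1
            have hN : x j ^ 2 + x (j.succAbove k') ^ 2 ∈ Icc (a ^ 2) (b ^ 2) := h2
            rw [e1] at hN
            have hc : ∀ i, 0 ≤ x (j.succAbove i) ∧ x (j.succAbove i) ≤ a / 2 := fun i =>
              ⟨h3.1 i, h3.2 i⟩
            have hxS : x ∈ S := by
              refine ⟨⟨hN.1, hN.2⟩, fun i => ?_⟩
              rcases eq_or_ne i j with rfl | hi
              · rw [abs_of_pos hj]
                by_contra h
                rw [not_le] at h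
                nlinarith [hN.2, sq_nonneg (x k)]
              · obtain ⟨i', rfl⟩ := Fin.exists_succAbove_eq hi
                rw [abs_of_nonneg (hc i').1]
                linarith [(hc i').2]
            rw [indicator_of_mem hxS, hF, indicator_of_mem (show _ ∈ T from ⟨h1, h2, h3⟩)]
            unfold N2
            rw [← e1]
            exact le_refl _
          · rw [hF, indicator_of_notMem hx]
            exact zero_le
      _ = 0 := h0
  have hvol : volume B ≠ 0 := by
    rw [hB, Real.volume_Icc_pi]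
    simp only [sub_zero, Finset.prod_const]
    exact pow_ne_zero _ (by simpa using ha)
  have hcoef : ENNReal.ofReal (1 / (2 * b)) ≠ 0 := by
    rw [Ne, ENNReal.ofReal_eq_zero, not_le]
    positivity
  have h1 := le_antisymm key zero_le
  rcases mul_eq_zero.1 h1 with h | h
  · exact absurd h hvol
  · rcases mul_eq_zero.1 h with h | h
    · exact absurd h hcoef
    · exact h

end Pool.Agent.Q210.CC62.Shr
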