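import Pool.Agent.Q62.CC.Stm

set_option autoImplicit false

open Set Filter Topology MeasureTheory

namespace Pool.Agent.Q210.CC62.Trc

open Pool.Agent.Q62.CC

lemma Gr_nonneg {α β x y : ℝ} (hab : α < β) (hx : x ∈ Icc α β) (hy : y ∈ Icc α β) :
    0 ≤ Gr α β x y := by
  unfold Gr
  have h1 : 0 ≤ min x y - α := by
    have := le_min hx.1 hy.1
    linarith
  have h2 : 0 ≤ β - max x y := by
    have := max_le hx.2 hy.2
    linarith
  exact div_nonneg (mul_nonneg h1 h2) (by linarith)

lemma Gr_le {α β x y : ℝ} (hab : α < β) (hx : x ∈ Icc α β) (hy : y ∈ Icc α β) :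
    Gr α β x y ≤ β - α := by
  unfold Gr
  have h1 : 0 ≤ min x y - α := by
    have := le_min hx.1 hy.1
    linarith
  have h2 : 0 ≤ β - max x y := by
    have := max_le hx.2 hy.2
    linarith
  have h3 : min x y - α ≤ β - α := by
    have := min_le_left x y
    linarith [hx.2]
  have h4 : β - max x y ≤ β - α := by
    have := le_max_left x y
    linarith [hx.1]
  rw [div_le_iff₀ (by linarith)]
  exact mul_le_mul h3 h4 h2 (by linarith)

theorem t_TRC : S_TRC := by
  intro m x₀ x₁ α β M c hm ι φ μ hφ hμ hn hp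
  have hab := hm.hab
  have hsub : Icc α β ⊆ Ioo x₀ x₁ := fun x hx =>
    ⟨lt_of_lt_of_le hm.h0 hx.1, lt_of_le_of_lt hx.2 hm.h1⟩
  have hmc : ContinuousOn m (Icc α β) := hm.smooth.continuousOn.mono hsub
  have hmpos : ∀ x ∈ Icc α β, 0 < m x := fun x hx => hm.pos x (hsub hx)
  have hmle : ∀ x ∈ Icc α β, m x ≤ M := fun x hx => hm.le x (hsub hx)
  have hGc : ∀ x, Continuous fun y => Gr α β x y := by
    intro x
    unfold Gr
    fun_prop
  set B : ℝ := ∫ _y in Icc α β, M * (β - α) ^ 2 with hB
  -- the pointwise bound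
  have hpt : ∀ x ∈ Icc α β, ∀ s : Finset ι, ∑ i ∈ s, (μ i * φ i x) ^ 2 ≤ B := by
    intro x hx s
    have hL : MemLp (fun y => Gr α β x y) 2 (volume.restrict (Icc α β)) := by
      refine MemLp.of_bound (hGc x).aestronglyMeasurable (β - α) ?_
      refine (ae_restrict_iff' measurableSet_Icc).2 (Filter.Eventually.of_forall fun y hy => ?_)
      rw [Real.norm_eq_abs, abs_of_nonneg (Gr_nonneg hab hx hy)]
      exact Gr_le hab hx hy
    have h1 := hp _ hL
    have h2 : ∀ i, (∫ y in Icc α β, m y * (Gr α β x y * φ i y)) = μ i * φ i x := by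
      intro i
      rw [← hμ i x hx]
      refine integral_congr_ae (Filter.Eventually.of_forall fun y => ?_)
      simp only
      ring
    simp only [h2] at h1
    have h3 : ∑ i ∈ s, (μ i * φ i x) ^ 2 ≤ ∫ y in Icc α β, m y * Gr α β x y ^ 2 :=
      sum_le_hasSum s (fun i _ => sq_nonneg _) h1
    refine h3.trans ?_
    rw [hB]
    refine setIntegral_mono_on ?_ ?_ measurableSet_Icc ?_
    · exact (hmc.mul ((hGc x).continuousOn.pow 2)).integrableOn_Icc
    · exact continuousOn_const.integrableOn_Icc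
    · intro y hy
      have g0 := Gr_nonneg hab hx hy
      have g1 := Gr_le hab hx hy
      exact mul_le_mul (hmle y hy) (pow_le_pow_left₀ g0 g1 2) (sq_nonneg _)
        ((hmpos y hy).le.trans (hmle y hy))
  refine summable_of_sum_le (c := ∫ x in Icc α β, m x * B) (fun i => sq_nonneg _) ?_
  intro s
  have h4 : ∀ i, μ i ^ 2 = ∫ x in Icc α β, m x * (μ i * φ i x) ^ 2 := by
    intro i
    have : ∫ x in Icc α β, m x * (μ i * φ i x) ^ 2 =
        ∫ x in Icc α β, μ i ^ 2 * (m x * φ i x ^ 2) := by
      refine integral_congr_ae (Filter.Eventually.of_forall fun y => ?_)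
      simp only
      ring
    rw [this, integral_const_mul, hn i, mul_one]
  have hint : ∀ i, IntegrableOn (fun x => m x * (μ i * φ i x) ^ 2) (Icc α β) := by
    intro i
    exact (hmc.mul ((continuousOn_const.mul (hφ i)).pow 2)).integrableOn_Icc
  rw [Finset.sum_congr rfl fun i _ => h4 i, ← integral_finsetSum s fun i _ => hint i]
  refine setIntegral_mono_on ?_ ?_ measurableSet_Icc ?_
  · exact integrable_finsetSum s fun i _ => hint i
  · exact (hmc.mul continuousOn_const).integrableOn_Icc
  · intro x hx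
    rw [← Finset.mul_sum]
    exact mul_le_mul_of_nonneg_left (hpt x hx s) (hmpos x hx).le

end Pool.Agent.Q210.CC62.Trc
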